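import Pool.Agent.R790.Ori.LS

/-! Primitivity and monodromy groups of L-shaped origamis. -/

set_option autoImplicit false

namespace Pool.Agent.R790.Ori

open Equiv
open scoped Pointwise

section

variable {a n : ℕ} (h : 2 ≤ a ∧ a < n)

theorem mem_mon_h {n : ℕ} (p : Pr n) : p.1 ∈ mon p := Subgroup.subset_closure (by simp)

theorem mem_mon_v {n : ℕ} (p : Pr n) : p.2 ∈ mon p := Subgroup.subset_closure (by simp)

theorem LP_three : ((LP a n h).1 * (LP a n h).2 * (LP a n h).1⁻¹ *
    (LP a n h).2⁻¹).IsThreeCycle := by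
  have e : (LP a n h).1 * (LP a n h).2 * (LP a n h).1⁻¹ * (LP a n h).2⁻¹ =
      swap (⟨0, by omega⟩ : Fin n) ⟨a, h.2⟩ * swap (⟨0, by omega⟩ : Fin n) ⟨1, by omega⟩ := by
    refine Equiv.ext fun i => Fin.ext ?_
    have hi := i.2
    have e1 : ((((LP a n h).1 * (LP a n h).2 * (LP a n h).1⁻¹ * (LP a n h).2⁻¹) i : Fin n) : ℕ) =
        hF a (vF a n (hB a (vB a n i))) := rfl
    rw [e1, Perm.mul_apply, swap_apply_def, swap_apply_def]
    simp only [Fin.ext_iff]
    have s1 := vB_spec a n i
    have s2 := hB_spec a (vB a n i)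
    have s3 := vF_spec a n (hB a (vB a n i))
    have s4 := hF_spec a (vF a n (hB a (vB a n i)))
    by_cases c0 : (i : ℕ) = 0
    · have e0 : ¬ (1 = 0) := by omega
      have e0' : ¬ (1 = a) := by omega
      simp only [c0, if_true, if_neg e0, if_neg e0'] at *
      omega
    · by_cases c1 : (i : ℕ) = 1
      · have e0 : ¬ (1 = 0) := by omega
        simp only [c1, if_true, if_neg e0] at *
        omega
      · by_cases c2 : (i : ℕ) = a
        · have e0 : ¬ (a = 0) := by omega
          have e1 : ¬ (a = 1) := by omega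
          simp only [c2, if_true, if_neg e0, if_neg e1] at *
          omega
        · simp only [if_neg c0, if_neg c1, if_neg c2]
          omega
  rw [e]
  refine Perm.isThreeCycle_swap_mul_swap_same ?_ ?_ ?_
  · simp only [Ne, Fin.ext_iff]; omega
  · simp only [Ne, Fin.ext_iff]; omega
  · simp only [Ne, Fin.ext_iff]; omega

theorem LP_reach (i : ℕ) (hi : i < n) :
    ∃ g ∈ mon (LP a n h), g (⟨0, by omega⟩ : Fin n) = ⟨i, hi⟩ := by
  induction i using Nat.strong_induction_on with
  | _ i ih =>
  by_cases h0 : i = 0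
  · subst h0
    exact ⟨1, Subgroup.one_mem _, rfl⟩
  by_cases h1 : i < a
  · obtain ⟨g, hg, hg2⟩ := ih (i - 1) (by omega) (by omega)
    refine ⟨(LP a n h).1 * g, Subgroup.mul_mem _ (mem_mon_h _) hg, ?_⟩
    rw [Perm.mul_apply, hg2]
    refine Fin.ext ?_
    show hF a (i - 1) = i
    have := hF_spec a (i - 1)
    omega
  by_cases h2 : i = a
  · refine ⟨(LP a n h).2, mem_mon_v _, ?_⟩
    refine Fin.ext ?_
    show vF a n 0 = i
    have := vF_spec a n 0
    omega
  · obtain ⟨g, hg, hg2⟩ := ih (i - 1) (by omega) (by omega)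
    refine ⟨(LP a n h).2 * g, Subgroup.mul_mem _ (mem_mon_v _) hg, ?_⟩
    rw [Perm.mul_apply, hg2]
    refine Fin.ext ?_
    show vF a n (i - 1) = i
    have := vF_spec a n (i - 1)
    omega

theorem LP_prim : MulAction.IsPreprimitive (mon (LP a n h)) (Fin n) := by
  have htrans : MulAction.IsPretransitive (mon (LP a n h)) (Fin n) := by
    refine ⟨fun x y => ?_⟩
    obtain ⟨g, hg, hg2⟩ := LP_reach h x x.2
    obtain ⟨k, hk, hk2⟩ := LP_reach h y y.2
    refine ⟨⟨k, hk⟩ * ⟨g, hg⟩⁻¹, ?_⟩
    show k (g⁻¹ x) = y
    have : g⁻¹ x = ⟨0, by omega⟩ := by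
      rw [Perm.inv_eq_iff_eq]
      exact hg2.symm
    rw [this, hk2]
  refine MulAction.IsPreprimitive.of_isTrivialBlock_base (⟨0, by omega⟩ : Fin n) fun {B} h0 hB => ?_
  rw [MulAction.isBlock_iff_smul_eq_of_nonempty] at hB
  let gH : mon (LP a n h) := ⟨(LP a n h).1, mem_mon_h _⟩
  let gV : mon (LP a n h) := ⟨(LP a n h).2, mem_mon_v _⟩
  have stab : ∀ (g : mon (LP a n h)) (y : Fin n), y ∈ B → g • y = y → ∀ x ∈ B, g • x ∈ B := by
    intro g y hy hgy x hx
    have : g • B = B := hB ⟨y, ⟨y, hy, hgy⟩, hy⟩
    rw [← this]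
    exact Set.smul_mem_smul_set hx
  have hHval : ∀ x : Fin n, ((gH • x : Fin n) : ℕ) = hF a x := fun x => rfl
  have hVval : ∀ x : Fin n, ((gV • x : Fin n) : ℕ) = vF a n x := fun x => rfl
  -- a point of the vertical leg gives everything
  have claim1 : (∃ y ∈ B, a ≤ (y : ℕ)) → B = Set.univ := by
    rintro ⟨y, hy, hya⟩
    have sH := stab gH y hy (Fin.ext (by
      rw [hHval]
      have := hF_spec a y
      omega))
    have low : ∀ i : ℕ, ∀ hi : i < n, i < a → (⟨i, hi⟩ : Fin n) ∈ B := by
      intro i
      induction i with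
      | zero => intro _ _; exact h0
      | succ i ih =>
        intro hi hia
        have h1 := sH _ (ih (by omega) (by omega))
        have h2 : gH • (⟨i, by omega⟩ : Fin n) = ⟨i + 1, hi⟩ := Fin.ext (by
          rw [hHval]
          have := hF_spec a i
          show hF a i = i + 1
          omega)
        rwa [h2] at h1
    have sV := stab gV ⟨1, by omega⟩ (low 1 _ (by omega)) (Fin.ext (by
      rw [hVval]
      have := vF_spec a n 1
      show vF a n 1 = 1
      omega))
    have high : ∀ i : ℕ, ∀ hi : i < n, (⟨i, hi⟩ : Fin n) ∈ B := by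
      intro i
      induction i with
      | zero => intro _; exact h0
      | succ i ih =>
        intro hi
        by_cases hia : i + 1 < a
        · exact low _ hi hia
        · by_cases hia2 : i + 1 = a
          · have h1 := sV _ h0
            have h2 : gV • (⟨0, by omega⟩ : Fin n) = ⟨i + 1, hi⟩ := Fin.ext (by
              rw [hVval]
              have := vF_spec a n 0
              show vF a n 0 = i + 1
              omega)
            rwa [h2] at h1
          · have h1 := sV _ (ih (by omega))
            have h2 : gV • (⟨i, by omega⟩ : Fin n) = ⟨i + 1, hi⟩ := Fin.ext (by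
              rw [hVval]
              have := vF_spec a n i
              show vF a n i = i + 1
              omega)
            rwa [h2] at h1
    exact Set.eq_univ_of_forall fun x => high x x.2
  by_cases hex : ∃ y ∈ B, y ≠ (⟨0, by omega⟩ : Fin n)
  · right
    obtain ⟨y, hy, hy0⟩ := hex
    by_cases hya : a ≤ (y : ℕ)
    · exact claim1 ⟨y, hy, hya⟩
    · have hy0' : (y : ℕ) ≠ 0 := fun h => hy0 (Fin.ext h)
      have sV := stab gV y hy (Fin.ext (by
        rw [hVval]
        have := vF_spec a n y
        omega))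
      refine claim1 ⟨_, sV _ h0, ?_⟩
      rw [hVval]
      have := vF_spec a n 0
      show a ≤ vF a n 0
      omega
  · left
    push Not at hex
    intro x hx y hy
    rw [hex x hx, hex y hy]

theorem LP_primH2 : PrimH2 (LP a n h) := ⟨LP_prim h, LP_three h⟩

theorem LP_alt : alternatingGroup (Fin n) ≤ mon (LP a n h) := by
  refine Perm.alternatingGroup_le_of_isPreprimitive_of_isThreeCycle_mem (LP_prim h) (LP_three h) ?_
  have h1 := mem_mon_h (LP a n h)
  have h2 := mem_mon_v (LP a n h)
  exact Subgroup.mul_mem _ (Subgroup.mul_mem _ (Subgroup.mul_mem _ h1 h2)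
    (Subgroup.inv_mem _ h1)) (Subgroup.inv_mem _ h2)

theorem support_card {n : ℕ} (σ : Perm (Fin n)) : σ.support.card = n - fc σ := by
  have h1 : σ.support = (Finset.univ.filter fun i => σ i = i)ᶜ := by
    ext i
    simp
  rw [h1, Finset.card_compl, Fintype.card_fin]
  rfl

theorem hP_cycle : (hP a n h).IsCycle := by
  refine ⟨⟨0, by omega⟩, ?_, ?_⟩
  · intro h0
    have h1 := congrArg Fin.val h0
    have h2 : hF a 0 = 0 := h1
    have := hF_spec a 0
    omega
  · intro y hy
    have hya : (y : ℕ) < a := by
      by_contra hc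
      apply hy
      refine Fin.ext ?_
      rw [hP_val]
      have := hF_spec a y
      omega
    have key : ∀ i : ℕ, ∀ hi : i < n, i < a → ((hP a n h) ^ i) (⟨0, by omega⟩ : Fin n) = ⟨i, hi⟩ := by
      intro i
      induction i with
      | zero => intro _ _; rfl
      | succ i ih =>
        intro hi hia
        rw [pow_succ', Perm.mul_apply, ih (by omega) (by omega)]
        refine Fin.ext ?_
        rw [hP_val]
        have := hF_spec a i
        show hF a i = i + 1
        omega
    refine ⟨(y : ℕ), ?_⟩
    rw [zpow_natCast]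
    exact key y y.2 hya

theorem vP_cycle : (vP a n h).IsCycle := by
  refine ⟨⟨0, by omega⟩, ?_, ?_⟩
  · intro h0
    have h1 := congrArg Fin.val h0
    have h2 : vF a n 0 = 0 := h1
    have := vF_spec a n 0
    omega
  · intro y hy
    have key : ∀ i : ℕ, ∀ hi : a + i < n,
        ((vP a n h) ^ (i + 1)) (⟨0, by omega⟩ : Fin n) = ⟨a + i, hi⟩ := by
      intro i
      induction i with
      | zero =>
        intro hi
        rw [pow_one]
        refine Fin.ext ?_
        rw [vP_val]
        have := vF_spec a n 0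
        show vF a n 0 = a + 0
        omega
      | succ i ih =>
        intro hi
        rw [pow_succ', Perm.mul_apply, ih (by omega)]
        refine Fin.ext ?_
        rw [vP_val]
        have := vF_spec a n (a + i)
        show vF a n (a + i) = a + (i + 1)
        omega
    by_cases hy0 : (y : ℕ) = 0
    · refine ⟨0, ?_⟩
      exact Fin.ext hy0.symm
    · have hya : a ≤ (y : ℕ) := by
        by_contra hc
        apply hy
        refine Fin.ext ?_
        rw [vP_val]
        have := vF_spec a n y
        omega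
      refine ⟨((y - a + 1 : ℕ) : ℤ), ?_⟩
      rw [zpow_natCast, key (y - a) (by omega)]
      refine Fin.ext ?_
      show a + (y - a) = (y : ℕ)
      omega

theorem hP_sign : Perm.sign (hP a n h) = -(-1) ^ a := by
  rw [(hP_cycle h).sign, support_card, fc_h]
  congr 2
  omega

theorem vP_sign : Perm.sign (vP a n h) = -(-1) ^ (n + 1 - a) := by
  rw [(vP_cycle h).sign, support_card, fc_v]
  congr 2
  omega

/-- even `a`: the monodromy group is the symmetric group -/
theorem LP_mon_top (ha : Even a) : mon (LP a n h) = ⊤ := by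
  have hs : Perm.sign (LP a n h).1 = -1 := by
    show Perm.sign (hP a n h) = -1
    rw [hP_sign, ha.neg_one_pow]
  rw [eq_top_iff]
  intro x _
  rcases Int.units_eq_one_or (Perm.sign x) with h1 | h1
  · exact LP_alt h (Perm.mem_alternatingGroup.2 h1)
  · have h2 : x * (LP a n h).1 ∈ mon (LP a n h) := by
      refine LP_alt h (Perm.mem_alternatingGroup.2 ?_)
      rw [map_mul, h1, hs]
      rfl
    have h3 := Subgroup.mul_mem _ h2 (Subgroup.inv_mem _ (mem_mon_h (LP a n h)))
    rwa [mul_inv_cancel_right] at h3

/-- odd `a` and odd `n`: the monodromy group is the alternating group -/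
theorem LP_mon_alt (ha : Odd a) (hn : Odd n) : mon (LP a n h) = alternatingGroup (Fin n) := by
  refine le_antisymm ?_ (LP_alt h)
  unfold mon
  rw [Subgroup.closure_le]
  rintro x (rfl | rfl)
  · refine Perm.mem_alternatingGroup.2 ?_
    show Perm.sign (hP a n h) = 1
    rw [hP_sign, ha.neg_one_pow, neg_neg]
  · refine Perm.mem_alternatingGroup.2 ?_
    show Perm.sign (vP a n h) = 1
    have ho : Odd (n + 1 - a) := by
      obtain ⟨k, hk⟩ := ha
      obtain ⟨l, hl⟩ := hn
      refine ⟨l - k, ?_⟩
      omega
    rw [vP_sign, ho.neg_one_pow, neg_neg]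

end

end Pool.Agent.R790.Ori
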