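import Pool.Agent.R790.Ori.N4
import Pool.Agent.R790.Ori.Mono

/-! All orbit graphs. -/

set_option autoImplicit false

namespace Pool.Agent.R790.Ori

open Equiv

/-- The complete bipartite graph `K_{3,3}`. -/
abbrev K33 : SimpleGraph (Fin 3 ⊕ Fin 3) := completeBipartiteGraph (Fin 3) (Fin 3)

theorem even_case (n : ℕ) (hn : 4 ≤ n) (he : Even n) :
    ∃ p : Pr n, PrimH2 p ∧ LocalMinor K33 3 (orbitGraph (cls p)) := by
  by_cases h4 : n = 4
  · subst h4
    exact ⟨LP 2 4 (by decide), LP_primH2 _, small4⟩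
  by_cases h6 : n = 6
  · subst h6
    exact ⟨LP 2 6 (by decide), LP_primH2 _, small6⟩
  have h8 : 8 ≤ n := by
    obtain ⟨k, hk⟩ := he
    omega
  have h : 2 ≤ 4 ∧ 4 < n := ⟨by norm_num, by omega⟩
  exact ⟨LP 4 n h, LP_primH2 h, minor_LP h le_rfl (by omega) (by omega)⟩

theorem oddA_case (n : ℕ) (hn : 5 ≤ n) (ho : Odd n) :
    ∃ p : Pr n, PrimH2 p ∧ mon p = ⊤ ∧ LocalMinor K33 3 (orbitGraph (cls p)) := by
  by_cases h5 : n = 5
  · subst h5
    exact ⟨LP 2 5 (by decide), LP_primH2 _, LP_mon_top _ (by decide), small5⟩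
  by_cases h7 : n = 7
  · subst h7
    exact ⟨LP 2 7 (by decide), LP_primH2 _, LP_mon_top _ (by decide), small7A⟩
  have h9 : 9 ≤ n := by
    obtain ⟨k, hk⟩ := ho
    omega
  have h : 2 ≤ 4 ∧ 4 < n := ⟨by norm_num, by omega⟩
  exact ⟨LP 4 n h, LP_primH2 h, LP_mon_top h (by decide), minor_LP h le_rfl (by omega) (by omega)⟩

theorem oddB_case (n : ℕ) (hn : 7 ≤ n) (ho : Odd n) :
    ∃ p : Pr n, PrimH2 p ∧ mon p = alternatingGroup (Fin n) ∧
      LocalMinor K33 3 (orbitGraph (cls p)) := by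
  by_cases h7 : n = 7
  · subst h7
    exact ⟨LP 3 7 (by decide), LP_primH2 _, LP_mon_alt _ (by decide) ho, small7B⟩
  by_cases h9 : n = 9
  · subst h9
    exact ⟨LP 3 9 (by decide), LP_primH2 _, LP_mon_alt _ (by decide) ho, small9B⟩
  have h11 : 11 ≤ n := by
    obtain ⟨k, hk⟩ := ho
    omega
  have h : 2 ≤ 5 ∧ 5 < n := ⟨by norm_num, by omega⟩
  exact ⟨LP 5 n h, LP_primH2 h, LP_mon_alt h (by decide) ho,
    minor_LP h (by norm_num) (by omega) (by omega)⟩

theorem mon_cases {n : ℕ} {p : Pr n} (hp : PrimH2 p) :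
    mon p = ⊤ ∨ mon p = alternatingGroup (Fin n) := by
  have h1 := mem_mon_h p
  have h2 := mem_mon_v p
  have halt : alternatingGroup (Fin n) ≤ mon p :=
    Perm.alternatingGroup_le_of_isPreprimitive_of_isThreeCycle_mem hp.1 hp.2
      (Subgroup.mul_mem _ (Subgroup.mul_mem _ (Subgroup.mul_mem _ h1 h2)
        (Subgroup.inv_mem _ h1)) (Subgroup.inv_mem _ h2))
  by_cases h : ∃ g ∈ mon p, Perm.sign g = -1
  · left
    obtain ⟨g, hg, hs⟩ := h
    rw [eq_top_iff]
    intro x _
    rcases Int.units_eq_one_or (Perm.sign x) with h1 | h1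
    · exact halt (Perm.mem_alternatingGroup.2 h1)
    · have h2 : x * g ∈ mon p := by
        refine halt (Perm.mem_alternatingGroup.2 ?_)
        rw [map_mul, h1, hs]
        rfl
      have h3 := Subgroup.mul_mem _ h2 (Subgroup.inv_mem _ hg)
      rwa [mul_inv_cancel_right] at h3
  · right
    refine le_antisymm (fun g hg => ?_) halt
    push Not at h
    rcases Int.units_eq_one_or (Perm.sign g) with h1 | h1
    · exact Perm.mem_alternatingGroup.2 h1
    · exact absurd h1 (h g hg)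

/-- The known classification of the orbits of primitive `n`-square origamis in `H(2)`: one orbit
for even `n`, and for odd `n` the origamis with the same monodromy group form one orbit. -/
def Classification (n : ℕ) : Prop :=
  ∀ p q : Pr n, PrimH2 p → PrimH2 q → (Even n ∨ mon p = mon q) → cls q ∈ orb (cls p)

/-- the graph on a set of classes -/
def gr {n : ℕ} (s : Set (Cls n)) : SimpleGraph s where
  Adj y z := y ≠ z ∧ (z.1 = T n y.1 ∨ z.1 = S n y.1 ∨ y.1 = T n z.1 ∨ y.1 = S n z.1)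
  symm := ⟨by
    rintro y z ⟨h, h'⟩
    exact ⟨h.symm, by tauto⟩⟩
  loopless := ⟨fun y h => h.1 rfl⟩

theorem lm_congr {n L : ℕ} {x y : Cls n} (h : orb x = orb y)
    (hm : LocalMinor K33 L (orbitGraph x)) : LocalMinor K33 L (orbitGraph y) := by
  have key : ∀ s t : Set (Cls n), s = t → LocalMinor K33 L (gr s) → LocalMinor K33 L (gr t) := by
    rintro s _ rfl h
    exact h
  exact key _ _ h hm

theorem all_case (n : ℕ) (hn : 4 ≤ n) (hc : Classification n) (p : Pr n) (hp : PrimH2 p)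
    (h5 : ¬ (n = 5 ∧ mon p = alternatingGroup (Fin n))) :
    LocalMinor K33 3 (orbitGraph (cls p)) := by
  have tr : ∀ q : Pr n, PrimH2 q → (Even n ∨ mon q = mon p) →
      LocalMinor K33 3 (orbitGraph (cls q)) → LocalMinor K33 3 (orbitGraph (cls p)) := by
    intro q hq h hm
    have h1 := hc q p hq hp h
    exact lm_congr (MulAction.orbit_eq_iff.2 h1).symm hm
  rcases Nat.even_or_odd n with he | ho
  · obtain ⟨q, hq, hm⟩ := even_case n hn he
    exact tr q hq (Or.inl he) hm
  · rcases mon_cases hp with h | h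
    · obtain ⟨q, hq, hq2, hm⟩ := oddA_case n (by obtain ⟨k, hk⟩ := ho; omega) ho
      exact tr q hq (Or.inr (hq2.trans h.symm)) hm
    · have h7 : 7 ≤ n := by
        by_contra hlt
        apply h5
        obtain ⟨k, hk⟩ := ho
        exact ⟨by omega, h⟩
      obtain ⟨q, hq, hq2, hm⟩ := oddB_case n h7 ho
      exact tr q hq (Or.inr (hq2.trans h.symm)) hm

end Pool.Agent.R790.Ori
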