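import Mathlib

/-! Origamis up to conjugation, the orbit graphs, local minors. -/

set_option autoImplicit false

namespace Pool.Agent.R790.Ori

open Equiv

/-- A pair of permutations of `n` squares. -/
abbrev Pr (n : ℕ) : Type := Perm (Fin n) × Perm (Fin n)

/-- simultaneous conjugacy of pairs of permutations -/
def Cj {n : ℕ} (p q : Pr n) : Prop :=
  ∃ σ : Perm (Fin n), σ * p.1 * σ⁻¹ = q.1 ∧ σ * p.2 * σ⁻¹ = q.2

theorem Cj.symm {n : ℕ} {p q : Pr n} (h : Cj p q) : Cj q p := by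
  obtain ⟨σ, h1, h2⟩ := h
  exact ⟨σ⁻¹, by rw [← h1]; group, by rw [← h2]; group⟩

theorem Cj.trans {n : ℕ} {p q r : Pr n} (h : Cj p q) (h' : Cj q r) : Cj p r := by
  obtain ⟨σ, h1, h2⟩ := h
  obtain ⟨τ, h3, h4⟩ := h'
  exact ⟨τ * σ, by rw [← h3, ← h1]; group, by rw [← h4, ← h2]; group⟩

/-- simultaneous conjugacy as an equivalence relation -/
instance cjSetoid (n : ℕ) : Setoid (Pr n) where
  r := Cj
  iseqv := ⟨fun p => ⟨1, by simp, by simp⟩, Cj.symm, Cj.trans⟩

/-- The pairs of permutations up to simultaneous conjugation. -/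
def Cls (n : ℕ) : Type := Quotient (cjSetoid n)

/-- the class of a pair -/
def cls {n : ℕ} (p : Pr n) : Cls n := Quotient.mk (cjSetoid n) p

theorem cls_eq {n : ℕ} {p q : Pr n} : cls p = cls q ↔ Cj p q := Quotient.eq

/-- The action of `T`: `(h, v)` goes to `(h, v h⁻¹)`. -/
def T (n : ℕ) : Perm (Cls n) where
  toFun := Quotient.map (fun p => (p.1, p.2 * p.1⁻¹)) (by
    rintro p q ⟨σ, h1, h2⟩
    exact ⟨σ, h1, by simp only [← h1, ← h2]; group⟩)
  invFun := Quotient.map (fun p => (p.1, p.2 * p.1)) (by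
    rintro p q ⟨σ, h1, h2⟩
    exact ⟨σ, h1, by simp only [← h1, ← h2]; group⟩)
  left_inv x := Quotient.inductionOn x fun p => cls_eq.2 ⟨1, by simp, by simp⟩
  right_inv x := Quotient.inductionOn x fun p => cls_eq.2 ⟨1, by simp, by simp⟩

/-- The action of `S`: `(h, v)` goes to `(h v⁻¹, v)`. -/
def S (n : ℕ) : Perm (Cls n) where
  toFun := Quotient.map (fun p => (p.1 * p.2⁻¹, p.2)) (by
    rintro p q ⟨σ, h1, h2⟩
    exact ⟨σ, by simp only [← h1, ← h2]; group, h2⟩)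
  invFun := Quotient.map (fun p => (p.1 * p.2, p.2)) (by
    rintro p q ⟨σ, h1, h2⟩
    exact ⟨σ, by simp only [← h1, ← h2]; group, h2⟩)
  left_inv x := Quotient.inductionOn x fun p => cls_eq.2 ⟨1, by simp, by simp⟩
  right_inv x := Quotient.inductionOn x fun p => cls_eq.2 ⟨1, by simp, by simp⟩

theorem T_cls {n : ℕ} (p : Pr n) : T n (cls p) = cls (p.1, p.2 * p.1⁻¹) := rfl

theorem S_cls {n : ℕ} (p : Pr n) : S n (cls p) = cls (p.1 * p.2⁻¹, p.2) := rfl

/-- The orbit of a class under the group generated by `T` and `S`. -/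
def orb {n : ℕ} (x : Cls n) : Set (Cls n) :=
  MulAction.orbit (Subgroup.closure {T n, S n}) x

/-- The orbit graph: the vertices are the elements of the orbit, an edge goes from each `y` to
`T y` and to `S y`. -/
def orbitGraph {n : ℕ} (x : Cls n) : SimpleGraph (orb x) where
  Adj y z := y ≠ z ∧ (z.1 = T n y.1 ∨ z.1 = S n y.1 ∨ y.1 = T n z.1 ∨ y.1 = S n z.1)
  symm := ⟨by
    rintro y z ⟨h, h'⟩
    exact ⟨h.symm, by tauto⟩⟩
  loopless := ⟨fun y h => h.1 rfl⟩

/-- The monodromy group. -/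
def mon {n : ℕ} (p : Pr n) : Subgroup (Perm (Fin n)) := Subgroup.closure {p.1, p.2}

/-- Primitive origamis in the stratum `H(2)`. -/
def PrimH2 {n : ℕ} (p : Pr n) : Prop :=
  MulAction.IsPreprimitive (mon p) (Fin n) ∧ (p.1 * p.2 * p.1⁻¹ * p.2⁻¹).IsThreeCycle

/-- An `L`-local `H` minor in a graph `G`. -/
def LocalMinor {W V : Type} (H : SimpleGraph W) (L : ℕ) (G : SimpleGraph V) : Prop :=
  ∃ B : W → Finset V, (∀ x, (B x).card ≤ L ∧ (G.induce (B x : Set V)).Connected) ∧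
    (∀ x y, x ≠ y → Disjoint (B x) (B y)) ∧
    ∀ x y, H.Adj x y → ∃ a ∈ B x, ∃ b ∈ B y, G.Adj a b

end Pool.Agent.R790.Ori
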