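import Pool.Agent.R790.Ori.LS

/-! The twelve points are distinct for large L-shaped origamis. -/

set_option autoImplicit false

namespace Pool.Agent.R790.Ori

open Equiv

theorem app_inv {n : ℕ} (f : Perm (Fin n)) (x : Fin n) : f (f⁻¹ x) = x := f.apply_symm_apply x

/-- four words -/
def ws4 : List (List (Fin 4)) := [[0], [2], [2, 0], [2, 1]]

theorem Iw_four {n : ℕ} (q : Pr n) :
    Iw ws4 q = [fc q.1, fc q.2, fc (q.2 * q.1), fc (q.2 * q.1⁻¹)] := by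
  simp [Iw, ws4, ev]

theorem LP_inj {a n : ℕ} (h : 2 ≤ a ∧ a < n) (h4 : 4 ≤ a) (h5 : a + 3 ≤ n) (h6 : n + 1 ≠ 2 * a) :
    Function.Injective fun k => Iw ws4 (P12 (LP a n h) k) := by
  set H := hP a n h with hH
  set V := vP a n h with hV
  have e0 : fc H = n - a := fc_h h
  have e1 : fc V = a - 1 := fc_v h
  have z1 : fc (V⁻¹ * H) = 0 := fc_zero fun i hi => by
    have : V⁻¹ (H i) = i := hi
    rw [Perm.inv_eq_iff_eq] at this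
    exact fA h h4 h5 i this.symm
  have z2 : fc (H⁻¹ * V) = 0 := by
    rw [← fc_inv]
    simpa using z1
  have z3 : fc (V * H⁻¹) = 0 := by
    rw [← fc_conj V⁻¹ (V * H⁻¹), ← fc_inv]
    have : (V⁻¹ * (V * H⁻¹) * V⁻¹⁻¹)⁻¹ = V⁻¹ * H := by group
    rw [this]
    exact z1
  have z4 : fc (H * V⁻¹) = 0 := by
    rw [← fc_inv]
    simpa using z3
  have z6 : fc (V * H) = 0 := fc_zero fun i hi => fB h h4 h5 i hi
  have z5 : fc (H⁻¹ * V⁻¹) = 0 := by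
    rw [← fc_inv]
    simpa using z6
  have z7 : fc (V * H⁻¹ * H⁻¹) = 0 := fc_zero fun i hi => by
    have h1 : V (H⁻¹ (H⁻¹ i)) = i := hi
    have h2 := fC h h4 h5 (H⁻¹ (H⁻¹ i))
    apply h2
    show V (H⁻¹ (H⁻¹ i)) = H (H (H⁻¹ (H⁻¹ i)))
    rw [h1, app_inv, app_inv]
  have z9 : fc (H⁻¹ * V * V) = 0 := fc_zero fun i hi => by
    have h1 : H⁻¹ (V (V i)) = i := hi
    rw [Perm.inv_eq_iff_eq] at h1
    exact fD h h4 h5 i h1
  have z8 : fc (V * V * H⁻¹) = 0 := by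
    rw [← fc_conj H⁻¹ (V * V * H⁻¹)]
    have : H⁻¹ * (V * V * H⁻¹) * H⁻¹⁻¹ = H⁻¹ * V * V := by group
    rw [this]
    exact z9
  have z10 : fc (H * V⁻¹ * H) = 0 := fc_zero fun i hi => by
    have h1 : H (V⁻¹ (H i)) = i := hi
    have h2 := fC h h4 h5 (V⁻¹ (H i))
    apply h2
    show V (V⁻¹ (H i)) = H (H (V⁻¹ (H i)))
    rw [h1, app_inv]
  have z11 : fc (H⁻¹ * V * V * V) = 0 := fc_zero fun i hi => by
    have h1 : H⁻¹ (V (V (V i))) = i := hi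
    rw [Perm.inv_eq_iff_eq] at h1
    exact fE h h4 h5 i h1
  have z12 : fc (V * H⁻¹ * H⁻¹ * H⁻¹) = 0 := fc_zero fun i hi => by
    have h1 : V (H⁻¹ (H⁻¹ (H⁻¹ i))) = i := hi
    have h2 := fF h h4 h5 (H⁻¹ (H⁻¹ (H⁻¹ i)))
    apply h2
    show V (H⁻¹ (H⁻¹ (H⁻¹ i))) = H (H (H (H⁻¹ (H⁻¹ (H⁻¹ i)))))
    rw [h1, app_inv, app_inv, app_inv]
  have z13 : fc (H * V⁻¹ * H * (V⁻¹ * H)) = 0 := fc_zero fun i hi => by
    have h1 : H (V⁻¹ (H (V⁻¹ (H i)))) = i := hi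
    set y := V⁻¹ (H i) with hy
    set z := V⁻¹ (H y) with hz
    have h2 : V z = H y := by rw [hz, app_inv]
    have h3 : V y = H i := by rw [hy, app_inv]
    refine fG h h4 h5 y z h2 ?_
    show V y = H (H z)
    rw [h3, h1]
  have q0 : Iw ws4 (P12 (LP a n h) 0) = [n - a, a - 1, fc (V * H), fc (V * H⁻¹)] := by
    rw [Iw_four, ← e0, ← e1]; rfl
  have q1 : Iw ws4 (P12 (LP a n h) 1) = [0, n - a, fc (H * (V⁻¹ * H)), fc (H * (V⁻¹ * H)⁻¹)] := by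
    rw [Iw_four, ← e0]
    show [fc (V⁻¹ * H), fc H, fc (H * (V⁻¹ * H)), fc (H * (V⁻¹ * H)⁻¹)] = _
    rw [z1]
  have q2 : Iw ws4 (P12 (LP a n h) 2) = [a - 1, 0, 0, n - a] := by
    rw [Iw_four]
    show [fc V, fc (H⁻¹ * V), fc (H⁻¹ * V * V), fc (H⁻¹ * V * V⁻¹)] = _
    rw [z2, z9, mul_inv_cancel_right, fc_inv, e0, e1]
  have q3 : Iw ws4 (P12 (LP a n h) 3) = [a - 1, n - a, fc (H⁻¹ * V), fc (H⁻¹ * V⁻¹)] := by
    rw [Iw_four]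
    show [fc V, fc H⁻¹, fc (H⁻¹ * V), fc (H⁻¹ * V⁻¹)] = _
    rw [fc_inv, e0, e1]
  have q4 : Iw ws4 (P12 (LP a n h) 4) = [n - a, 0, a - 1, 0] := by
    rw [Iw_four]
    show [fc H, fc (V * H⁻¹), fc (V * H⁻¹ * H), fc (V * H⁻¹ * H⁻¹)] = _
    rw [z3, z7, inv_mul_cancel_right, e0, e1]
  have q5 : Iw ws4 (P12 (LP a n h) 5) =
      [0, a - 1, fc (V * (H * V⁻¹)), fc (V * (H * V⁻¹)⁻¹)] := by
    rw [Iw_four]
    show [fc (H * V⁻¹), fc V, fc (V * (H * V⁻¹)), fc (V * (H * V⁻¹)⁻¹)] = _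
    rw [z4, e1]
  have q6 : Iw ws4 (P12 (LP a n h) 6) = [a - 1, 0, n - a, fc (H⁻¹ * V⁻¹ * V⁻¹)] := by
    rw [Iw_four]
    show [fc V, fc (H⁻¹ * V⁻¹), fc (H⁻¹ * V⁻¹ * V), fc (H⁻¹ * V⁻¹ * V⁻¹)] = _
    rw [z5, inv_mul_cancel_right, fc_inv, e0, e1]
  have q7 : Iw ws4 (P12 (LP a n h) 7) = [n - a, 0, 0, 0] := by
    rw [Iw_four]
    show [fc H, fc (V * H⁻¹ * H⁻¹), fc (V * H⁻¹ * H⁻¹ * H), fc (V * H⁻¹ * H⁻¹ * H⁻¹)] = _
    rw [z7, z12, inv_mul_cancel_right, z3, e0]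
  have q8 : Iw ws4 (P12 (LP a n h) 8) = [0, 0, a - 1, fc (V * V * H⁻¹ * (H * V⁻¹)⁻¹)] := by
    rw [Iw_four]
    show [fc (H * V⁻¹), fc (V * V * H⁻¹), fc (V * V * H⁻¹ * (H * V⁻¹)),
      fc (V * V * H⁻¹ * (H * V⁻¹)⁻¹)] = _
    have : V * V * H⁻¹ * (H * V⁻¹) = V := by group
    rw [z4, z8, this, e1]
  have q9 : Iw ws4 (P12 (LP a n h) 9) = [n - a, 0, fc (V * H * H), a - 1] := by
    rw [Iw_four]
    show [fc H, fc (V * H), fc (V * H * H), fc (V * H * H⁻¹)] = _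
    rw [z6, mul_inv_cancel_right, e0, e1]
  have q10 : Iw ws4 (P12 (LP a n h) 10) = [0, 0, 0, fc (H * V⁻¹ * H * (V⁻¹ * H)⁻¹)] := by
    rw [Iw_four]
    show [fc (V⁻¹ * H), fc (H * V⁻¹ * H), fc (H * V⁻¹ * H * (V⁻¹ * H)),
      fc (H * V⁻¹ * H * (V⁻¹ * H)⁻¹)] = _
    rw [z1, z10, z13]
  have q11 : Iw ws4 (P12 (LP a n h) 11) = [a - 1, 0, 0, 0] := by
    rw [Iw_four]
    show [fc V, fc (H⁻¹ * V * V), fc (H⁻¹ * V * V * V), fc (H⁻¹ * V * V * V⁻¹)] = _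
    rw [z9, z11, mul_inv_cancel_right, z2, e1]
  have key : (List.ofFn fun k => Iw ws4 (P12 (LP a n h) k)).Nodup := by
    have e : (List.ofFn fun k => Iw ws4 (P12 (LP a n h) k)) =
        [Iw ws4 (P12 (LP a n h) 0), Iw ws4 (P12 (LP a n h) 1), Iw ws4 (P12 (LP a n h) 2),
        Iw ws4 (P12 (LP a n h) 3), Iw ws4 (P12 (LP a n h) 4), Iw ws4 (P12 (LP a n h) 5),
        Iw ws4 (P12 (LP a n h) 6), Iw ws4 (P12 (LP a n h) 7), Iw ws4 (P12 (LP a n h) 8),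
        Iw ws4 (P12 (LP a n h) 9), Iw ws4 (P12 (LP a n h) 10), Iw ws4 (P12 (LP a n h) 11)] := rfl
    rw [e, q0, q1, q2, q3, q4, q5, q6, q7, q8, q9, q10, q11]
    simp only [List.nodup_cons, List.mem_cons, List.cons.injEq, List.not_mem_nil, or_false,
      not_or, not_false_eq_true, List.nodup_nil, and_true]
    omega
  exact List.nodup_ofFn.1 key

end Pool.Agent.R790.Ori
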