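import Pool.Agent.R790.Ori.Defs

/-! A local `K_{3,3}` minor from twelve distinct points of an orbit. -/

set_option autoImplicit false

namespace Pool.Agent.R790.Ori

open Equiv

theorem connected_of_star {V : Type} (G : SimpleGraph V) (s : Set V) (c : V) (hc : c ∈ s)
    (h : ∀ u ∈ s, u = c ∨ G.Adj u c) : (G.induce s).Connected := by
  have key : ∀ u : s, (G.induce s).Reachable u ⟨c, hc⟩ := by
    rintro ⟨u, hu⟩
    rcases h u hu with rfl | hadj
    · exact SimpleGraph.Reachable.refl _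
    · exact SimpleGraph.Adj.reachable (G := G.induce s) (u := ⟨u, hu⟩) (v := ⟨c, hc⟩) hadj
  have : Nonempty s := ⟨⟨c, hc⟩⟩
  exact ⟨fun u v => (key u).trans (key v).symm⟩

/-- the branch sets -/
def br {V : Type} [DecidableEq V] (P : Fin 12 → V) : Fin 3 ⊕ Fin 3 → Finset V
  | Sum.inl i => {P (![0, 1, 2] i)}
  | Sum.inr i => {P (![3, 4, 5] i), P (![6, 7, 8] i), P (![9, 10, 11] i)}

theorem minor12 {V : Type} (G : SimpleGraph V) (P : Fin 12 → V) (inj : Function.Injective P)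
    (hadj : ∀ e ∈ [((0 : Fin 12), (4 : Fin 12)), (1, 5), (2, 3), (0, 5), (1, 3), (2, 4), (3, 6),
      (4, 7), (5, 8), (9, 0), (10, 1), (11, 2), (9, 6), (10, 7), (11, 8)],
      G.Adj (P e.1) (P e.2)) :
    LocalMinor (completeBipartiteGraph (Fin 3) (Fin 3)) 3 G := by
  classical
  have A : ∀ k l : Fin 12, (k, l) ∈ [((0 : Fin 12), (4 : Fin 12)), (1, 5), (2, 3), (0, 5),
      (1, 3), (2, 4), (3, 6), (4, 7), (5, 8), (9, 0), (10, 1), (11, 2), (9, 6), (10, 7),
      (11, 8)] → G.Adj (P k) (P l) := fun k l h => hadj (k, l) h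
  refine ⟨br P, ?_, ?_, ?_⟩
  · rintro (i | i)
    · refine ⟨by simp [br], ?_⟩
      refine connected_of_star G _ (P (![0, 1, 2] i)) (by simp [br]) fun u hu => ?_
      simp only [br, Finset.coe_singleton, Set.mem_singleton_iff] at hu
      exact Or.inl hu
    · refine ⟨Finset.card_le_three, ?_⟩
      refine connected_of_star G _ (P (![6, 7, 8] i)) (by simp [br]) fun u hu => ?_
      simp only [br, Finset.coe_insert, Finset.coe_singleton, Set.mem_insert_iff,
        Set.mem_singleton_iff] at hu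
      rcases hu with rfl | rfl | rfl
      · right
        fin_cases i
        · exact A 3 6 (by simp)
        · exact A 4 7 (by simp)
        · exact A 5 8 (by simp)
      · exact Or.inl rfl
      · right
        fin_cases i
        · exact A 9 6 (by simp)
        · exact A 10 7 (by simp)
        · exact A 11 8 (by simp)
  · have key : ∀ x y : Fin 3 ⊕ Fin 3, x ≠ y → Disjoint (br (id : Fin 12 → Fin 12) x) (br id y) := by
      decide
    have e : ∀ x, br P x = (br (id : Fin 12 → Fin 12) x).image P := by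
      rintro (i | i) <;> simp [br, Finset.image_insert, Finset.image_singleton]
    intro x y hxy
    rw [e, e, Finset.disjoint_image inj]
    exact key x y hxy
  · rintro (i | i) (j | j) h
    · simp [completeBipartiteGraph] at h
    · fin_cases i <;> fin_cases j
      · exact ⟨P 0, by simp [br], P 9, by simp [br], (A 9 0 (by simp)).symm⟩
      · exact ⟨P 0, by simp [br], P 4, by simp [br], A 0 4 (by simp)⟩
      · exact ⟨P 0, by simp [br], P 5, by simp [br], A 0 5 (by simp)⟩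
      · exact ⟨P 1, by simp [br], P 3, by simp [br], A 1 3 (by simp)⟩
      · exact ⟨P 1, by simp [br], P 10, by simp [br], (A 10 1 (by simp)).symm⟩
      · exact ⟨P 1, by simp [br], P 5, by simp [br], A 1 5 (by simp)⟩
      · exact ⟨P 2, by simp [br], P 3, by simp [br], A 2 3 (by simp)⟩
      · exact ⟨P 2, by simp [br], P 4, by simp [br], A 2 4 (by simp)⟩
      · exact ⟨P 2, by simp [br], P 11, by simp [br], (A 11 2 (by simp)).symm⟩
    · fin_cases i <;> fin_cases j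
      · exact ⟨P 9, by simp [br], P 0, by simp [br], A 9 0 (by simp)⟩
      · exact ⟨P 3, by simp [br], P 1, by simp [br], (A 1 3 (by simp)).symm⟩
      · exact ⟨P 3, by simp [br], P 2, by simp [br], (A 2 3 (by simp)).symm⟩
      · exact ⟨P 4, by simp [br], P 0, by simp [br], (A 0 4 (by simp)).symm⟩
      · exact ⟨P 10, by simp [br], P 1, by simp [br], A 10 1 (by simp)⟩
      · exact ⟨P 4, by simp [br], P 2, by simp [br], (A 2 4 (by simp)).symm⟩
      · exact ⟨P 5, by simp [br], P 0, by simp [br], (A 0 5 (by simp)).symm⟩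
      · exact ⟨P 5, by simp [br], P 1, by simp [br], (A 1 5 (by simp)).symm⟩
      · exact ⟨P 11, by simp [br], P 2, by simp [br], A 11 2 (by simp)⟩
    · simp [completeBipartiteGraph] at h

section orbits

variable {n : ℕ}

theorem orb_self (x : Cls n) : x ∈ orb x := MulAction.mem_orbit_self x

theorem orb_T {x y : Cls n} : T n y ∈ orb x ↔ y ∈ orb x := by
  have hT : T n ∈ Subgroup.closure {T n, S n} := Subgroup.subset_closure (by simp)
  constructor
  · rintro ⟨g, hg⟩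
    refine ⟨⟨T n, hT⟩⁻¹ * g, ?_⟩
    have : g • x = T n y := hg
    show (⟨T n, hT⟩⁻¹ * g) • x = y
    rw [mul_smul, this, inv_smul_eq_iff]
    rfl
  · rintro ⟨g, hg⟩
    refine ⟨⟨T n, hT⟩ * g, ?_⟩
    have : g • x = y := hg
    show ((⟨T n, hT⟩ : Subgroup.closure {T n, S n}) * g) • x = T n y
    rw [mul_smul, this]
    rfl

theorem orb_S {x y : Cls n} : S n y ∈ orb x ↔ y ∈ orb x := by
  have hS : S n ∈ Subgroup.closure {T n, S n} := Subgroup.subset_closure (by simp)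
  constructor
  · rintro ⟨g, hg⟩
    refine ⟨⟨S n, hS⟩⁻¹ * g, ?_⟩
    have : g • x = S n y := hg
    show (⟨S n, hS⟩⁻¹ * g) • x = y
    rw [mul_smul, this, inv_smul_eq_iff]
    rfl
  · rintro ⟨g, hg⟩
    refine ⟨⟨S n, hS⟩ * g, ?_⟩
    have : g • x = y := hg
    show ((⟨S n, hS⟩ : Subgroup.closure {T n, S n}) * g) • x = S n y
    rw [mul_smul, this]
    rfl

/-- the twelve points -/
def P12 (p : Pr n) : Fin 12 → Pr n :=
  ![(p.1, p.2), (p.2⁻¹ * p.1, p.1), (p.2, p.1⁻¹ * p.2),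
    (p.2, p.1⁻¹), (p.1, p.2 * p.1⁻¹), (p.1 * p.2⁻¹, p.2),
    (p.2, p.1⁻¹ * p.2⁻¹), (p.1, p.2 * p.1⁻¹ * p.1⁻¹), (p.1 * p.2⁻¹, p.2 * p.2 * p.1⁻¹),
    (p.1, p.2 * p.1), (p.2⁻¹ * p.1, p.1 * p.2⁻¹ * p.1), (p.2, p.1⁻¹ * p.2 * p.2)]

theorem T_edges (p : Pr n) (e : Fin 12 × Fin 12)
    (he : e ∈ [((0 : Fin 12), (4 : Fin 12)), (1, 5), (2, 3), (3, 6), (4, 7), (5, 8), (9, 0),
      (10, 1), (11, 2)]) : cls (P12 p e.2) = T n (cls (P12 p e.1)) := by
  simp only [List.mem_cons, List.not_mem_nil, or_false] at he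
  rcases he with rfl | rfl | rfl | rfl | rfl | rfl | rfl | rfl | rfl
  · exact cls_eq.2 ⟨1, by simp [P12], by simp [P12]⟩
  · exact cls_eq.2 ⟨p.2⁻¹, by simp [P12, mul_assoc], by simp [P12, mul_assoc]⟩
  · exact cls_eq.2 ⟨1, by simp [P12], by simp [P12]⟩
  · exact cls_eq.2 ⟨1, by simp [P12], by simp [P12]⟩
  · exact cls_eq.2 ⟨1, by simp [P12], by simp [P12]⟩
  · exact cls_eq.2 ⟨1, by simp [P12], by simp [P12, mul_assoc]⟩
  · exact cls_eq.2 ⟨1, by simp [P12], by simp [P12]⟩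
  · exact cls_eq.2 ⟨1, by simp [P12], by simp [P12, mul_assoc]⟩
  · exact cls_eq.2 ⟨1, by simp [P12], by simp [P12]⟩

theorem S_edges (p : Pr n) (hneg : Cj p (p.1⁻¹, p.2⁻¹)) (e : Fin 12 × Fin 12)
    (he : e ∈ [((0 : Fin 12), (5 : Fin 12)), (1, 3), (2, 4), (9, 6), (10, 7), (11, 8)]) :
    cls (P12 p e.2) = S n (cls (P12 p e.1)) := by
  obtain ⟨σ, h1, h2⟩ := hneg
  have h1' : σ * p.1 * σ⁻¹ = p.1⁻¹ := h1
  have h2' : σ * p.2 * σ⁻¹ = p.2⁻¹ := h2
  have g1 : σ * p.1 = p.1⁻¹ * σ := by rw [← h1']; group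
  have g2 : σ * p.2 = p.2⁻¹ * σ := by rw [← h2']; group
  have g3 : σ * p.1⁻¹ = p.1 * σ := by
    rw [mul_inv_eq_iff_eq_mul, mul_assoc, g1]; group
  have g4 : σ * p.2⁻¹ = p.2 * σ := by
    rw [mul_inv_eq_iff_eq_mul, mul_assoc, g2]; group
  simp only [List.mem_cons, List.not_mem_nil, or_false] at he
  rcases he with rfl | rfl | rfl | rfl | rfl | rfl
  · exact cls_eq.2 ⟨1, by simp [P12], by simp [P12]⟩
  · refine (cls_eq.2 ⟨σ, ?_, ?_⟩).symm
    · show σ * (p.2⁻¹ * p.1 * p.1⁻¹) * σ⁻¹ = p.2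
      rw [mul_inv_cancel_right, g4]; group
    · show σ * p.1 * σ⁻¹ = p.1⁻¹
      exact h1'
  · refine (cls_eq.2 ⟨p.1, ?_, ?_⟩).symm
    · show p.1 * (p.2 * (p.1⁻¹ * p.2)⁻¹) * p.1⁻¹ = p.1
      group
    · show p.1 * (p.1⁻¹ * p.2) * p.1⁻¹ = p.2 * p.1⁻¹
      group
  · refine (cls_eq.2 ⟨p.2 * σ, ?_, ?_⟩).symm
    · show p.2 * σ * (p.1 * (p.2 * p.1)⁻¹) * (p.2 * σ)⁻¹ = p.2
      have : p.1 * (p.2 * p.1)⁻¹ = p.2⁻¹ := by group
      rw [this, mul_assoc p.2 σ, g4]
      group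
    · show p.2 * σ * (p.2 * p.1) * (p.2 * σ)⁻¹ = p.1⁻¹ * p.2⁻¹
      have : p.2 * σ * (p.2 * p.1) = p.2 * (σ * p.2) * p.1 := by group
      rw [this, g2]
      have : p.2 * (p.2⁻¹ * σ) * p.1 = σ * p.1 := by group
      rw [this, g1]
      group
  · refine (cls_eq.2 ⟨p.1 * σ, ?_, ?_⟩).symm
    · show p.1 * σ * (p.2⁻¹ * p.1 * (p.1 * p.2⁻¹ * p.1)⁻¹) * (p.1 * σ)⁻¹ = p.1
      have : p.2⁻¹ * p.1 * (p.1 * p.2⁻¹ * p.1)⁻¹ = p.1⁻¹ := by group
      rw [this, mul_assoc p.1 σ, g3]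
      group
    · show p.1 * σ * (p.1 * p.2⁻¹ * p.1) * (p.1 * σ)⁻¹ = p.2 * p.1⁻¹ * p.1⁻¹
      have : p.1 * σ * (p.1 * p.2⁻¹ * p.1) = p.1 * (σ * p.1) * p.2⁻¹ * p.1 := by group
      rw [this, g1]
      have : p.1 * (p.1⁻¹ * σ) * p.2⁻¹ * p.1 = (σ * p.2⁻¹) * p.1 := by group
      rw [this, g4, mul_assoc p.2 σ, g1]
      group
  · refine (cls_eq.2 ⟨p.1, ?_, ?_⟩).symm
    · show p.1 * (p.2 * (p.1⁻¹ * p.2 * p.2)⁻¹) * p.1⁻¹ = p.1 * p.2⁻¹
      group
    · show p.1 * (p.1⁻¹ * p.2 * p.2) * p.1⁻¹ = p.2 * p.2 * p.1⁻¹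
      group

theorem P12_mem (p : Pr n) (hneg : Cj p (p.1⁻¹, p.2⁻¹)) {x : Cls n} (hx : cls p ∈ orb x)
    (k : Fin 12) : cls (P12 p k) ∈ orb x := by
  have hT := T_edges p
  have hS := S_edges p hneg
  have m0 : cls (P12 p 0) ∈ orb x := hx
  have m4 : cls (P12 p 4) ∈ orb x := by rw [hT (0, 4) (by simp)]; exact orb_T.2 m0
  have m5 : cls (P12 p 5) ∈ orb x := by rw [hS (0, 5) (by simp)]; exact orb_S.2 m0
  have m1 : cls (P12 p 1) ∈ orb x := by
    have := hT (1, 5) (by simp)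
    rw [this] at m5
    exact orb_T.1 m5
  have m2 : cls (P12 p 2) ∈ orb x := by
    have := hS (2, 4) (by simp)
    rw [this] at m4
    exact orb_S.1 m4
  have m3 : cls (P12 p 3) ∈ orb x := by rw [hT (2, 3) (by simp)]; exact orb_T.2 m2
  have m4 : cls (P12 p 4) ∈ orb x := by rw [hT (0, 4) (by simp)]; exact orb_T.2 m0
  have m5 : cls (P12 p 5) ∈ orb x := by rw [hS (0, 5) (by simp)]; exact orb_S.2 m0
  have m6 : cls (P12 p 6) ∈ orb x := by rw [hT (3, 6) (by simp)]; exact orb_T.2 m3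
  have m7 : cls (P12 p 7) ∈ orb x := by rw [hT (4, 7) (by simp)]; exact orb_T.2 m4
  have m8 : cls (P12 p 8) ∈ orb x := by rw [hT (5, 8) (by simp)]; exact orb_T.2 m5
  have m9 : cls (P12 p 9) ∈ orb x := by
    have := hT (9, 0) (by simp)
    rw [this] at m0
    exact orb_T.1 m0
  have m10 : cls (P12 p 10) ∈ orb x := by
    have := hT (10, 1) (by simp)
    rw [this] at m1
    exact orb_T.1 m1
  have m11 : cls (P12 p 11) ∈ orb x := by
    have := hT (11, 2) (by simp)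
    rw [this] at m2
    exact orb_T.1 m2
  fin_cases k <;> assumption

/-- The local minor from twelve distinct points. -/
theorem minor_of_distinct (p : Pr n) (hneg : Cj p (p.1⁻¹, p.2⁻¹)) {x : Cls n}
    (hx : cls p ∈ orb x) (hinj : Function.Injective fun k => cls (P12 p k)) :
    LocalMinor (completeBipartiteGraph (Fin 3) (Fin 3)) 3 (orbitGraph x) := by
  let P : Fin 12 → orb x := fun k => ⟨cls (P12 p k), P12_mem p hneg hx k⟩
  have hP : Function.Injective P := fun k l h => hinj (congrArg Subtype.val h)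
  have hT := T_edges p
  have hS := S_edges p hneg
  refine minor12 (orbitGraph x) P hP fun e he => ?_
  have hne : e.1 ≠ e.2 := by
    simp only [List.mem_cons, List.not_mem_nil, or_false] at he
    rcases he with rfl | rfl | rfl | rfl | rfl | rfl | rfl | rfl | rfl | rfl | rfl | rfl | rfl |
      rfl | rfl <;> decide
  refine ⟨fun h => hne (hP h), ?_⟩
  by_cases h : e ∈ [((0 : Fin 12), (4 : Fin 12)), (1, 5), (2, 3), (3, 6), (4, 7), (5, 8), (9, 0),
      (10, 1), (11, 2)]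
  · exact Or.inl (hT e h)
  · refine Or.inr (Or.inl (hS e ?_))
    simp only [List.mem_cons, List.not_mem_nil, or_false] at he h ⊢
    tauto

end orbits

end Pool.Agent.R790.Ori
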