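import Pool.Agent.R790.Ori.Gen

/-! Counts of fixed points of words, and L-shaped origamis. -/

set_option autoImplicit false

namespace Pool.Agent.R790.Ori

open Equiv

section inv

variable {n : ℕ}

/-- the number of fixed points -/
def fc (σ : Perm (Fin n)) : ℕ := (Finset.univ.filter fun i => σ i = i).card

theorem fc_conj (τ σ : Perm (Fin n)) : fc (τ * σ * τ⁻¹) = fc σ := by
  unfold fc
  refine Finset.card_bij (fun i _ => τ⁻¹ i) ?_ ?_ ?_
  · intro i hi
    simp only [Finset.mem_filter, Finset.mem_univ, true_and] at hi ⊢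
    have h1 : τ (σ (τ⁻¹ i)) = i := hi
    have h2 := congrArg (fun x => τ⁻¹ x) h1
    simpa using h2
  · intro i _ j _ h
    exact τ⁻¹.injective h
  · intro i hi
    simp only [Finset.mem_filter, Finset.mem_univ, true_and] at hi
    refine ⟨τ i, ?_, by simp⟩
    simp [hi]

/-- the value of a word -/
def ev (p : Pr n) : List (Fin 4) → Perm (Fin n)
  | [] => 1
  | c :: l => (![p.1, p.1⁻¹, p.2, p.2⁻¹] c) * ev p l

theorem ev_cj {p q : Pr n} {σ : Perm (Fin n)} (h1 : σ * p.1 * σ⁻¹ = q.1)
    (h2 : σ * p.2 * σ⁻¹ = q.2) (w : List (Fin 4)) : ev q w = σ * ev p w * σ⁻¹ := by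
  induction w with
  | nil => simp [ev]
  | cons c l ih =>
    unfold ev
    rw [ih]
    fin_cases c
    · simp only [← h1]; show σ * p.1 * σ⁻¹ * _ = σ * (p.1 * _) * σ⁻¹; group
    · simp only [← h1]; show (σ * p.1 * σ⁻¹)⁻¹ * _ = σ * (p.1⁻¹ * _) * σ⁻¹; group
    · simp only [← h2]; show σ * p.2 * σ⁻¹ * _ = σ * (p.2 * _) * σ⁻¹; group
    · simp only [← h2]; show (σ * p.2 * σ⁻¹)⁻¹ * _ = σ * (p.2⁻¹ * _) * σ⁻¹; group

/-- the invariant given by a list of words -/
def Iw (ws : List (List (Fin 4))) (p : Pr n) : List ℕ := ws.map fun w => fc (ev p w)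

theorem Iw_cj (ws : List (List (Fin 4))) {p q : Pr n} (h : Cj p q) : Iw ws p = Iw ws q := by
  obtain ⟨σ, h1, h2⟩ := h
  unfold Iw
  refine List.map_congr_left fun w _ => ?_
  rw [ev_cj h1 h2, fc_conj]

theorem inj_of_Iw (ws : List (List (Fin 4))) {ι : Type} (P : ι → Pr n)
    (h : Function.Injective fun k => Iw ws (P k)) : Function.Injective fun k => cls (P k) :=
  fun _ _ hkl => h (Iw_cj ws (cls_eq.1 hkl))

end inv

/-- the horizontal permutation of an L-shaped origami -/
def hF (a : ℕ) (i : ℕ) : ℕ := if i + 1 < a then i + 1 else if i + 1 = a then 0 else i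

/-- its inverse -/
def hB (a : ℕ) (i : ℕ) : ℕ := if i = 0 then a - 1 else if i < a then i - 1 else i

/-- the vertical permutation of an L-shaped origami -/
def vF (a n : ℕ) (i : ℕ) : ℕ := if i = 0 then a else if i < a then i else
  if i + 1 < n then i + 1 else 0

/-- its inverse -/
def vB (a n : ℕ) (i : ℕ) : ℕ := if i = 0 then n - 1 else if i < a then i else
  if i = a then 0 else i - 1

theorem hF_spec (a i : ℕ) : (i + 1 < a ∧ hF a i = i + 1) ∨ (i + 1 = a ∧ hF a i = 0) ∨
    (a < i + 1 ∧ hF a i = i) := by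
  unfold hF
  split_ifs <;> omega

theorem hB_spec (a i : ℕ) : (i = 0 ∧ hB a i = a - 1) ∨ (0 < i ∧ i < a ∧ hB a i = i - 1) ∨
    (0 < i ∧ a ≤ i ∧ hB a i = i) := by
  unfold hB
  split_ifs <;> omega

theorem vF_spec (a n i : ℕ) : (i = 0 ∧ vF a n i = a) ∨ (0 < i ∧ i < a ∧ vF a n i = i) ∨
    (0 < i ∧ a ≤ i ∧ i + 1 < n ∧ vF a n i = i + 1) ∨
    (0 < i ∧ a ≤ i ∧ n ≤ i + 1 ∧ vF a n i = 0) := by
  unfold vF
  split_ifs <;> omega

theorem vB_spec (a n i : ℕ) : (i = 0 ∧ vB a n i = n - 1) ∨ (0 < i ∧ i < a ∧ vB a n i = i) ∨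
    (0 < i ∧ i = a ∧ vB a n i = 0) ∨
    (0 < i ∧ a < i ∧ vB a n i = i - 1) := by
  unfold vB
  split_ifs <;> omega

/-- The horizontal cycle `(0 1 … a-1)`. -/
def hP (a n : ℕ) (h : 2 ≤ a ∧ a < n) : Perm (Fin n) where
  toFun i := ⟨hF a i, by have := i.2; have := hF_spec a i; omega⟩
  invFun i := ⟨hB a i, by have := i.2; have := hB_spec a i; omega⟩
  left_inv i := Fin.ext (by
    have := i.2
    have := hF_spec a i
    have := hB_spec a (hF a i)
    show hB a (hF a i) = i
    omega)
  right_inv i := Fin.ext (by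
    have := i.2
    have := hB_spec a i
    have := hF_spec a (hB a i)
    show hF a (hB a i) = i
    omega)

/-- The vertical cycle `(0 a a+1 … n-1)`. -/
def vP (a n : ℕ) (h : 2 ≤ a ∧ a < n) : Perm (Fin n) where
  toFun i := ⟨vF a n i, by have := i.2; have := vF_spec a n i; omega⟩
  invFun i := ⟨vB a n i, by have := i.2; have := vB_spec a n i; omega⟩
  left_inv i := Fin.ext (by
    have := i.2
    have := vF_spec a n i
    have := vB_spec a n (vF a n i)
    show vB a n (vF a n i) = i
    omega)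
  right_inv i := Fin.ext (by
    have := i.2
    have := vB_spec a n i
    have := vF_spec a n (vB a n i)
    show vF a n (vB a n i) = i
    omega)

/-- The L-shaped origami with a horizontal cylinder of `a` squares and a vertical one of
`n + 1 - a` squares. -/
def LP (a n : ℕ) (h : 2 ≤ a ∧ a < n) : Pr n := (hP a n h, vP a n h)

/-- the rotation by half a turn of an L-shaped origami -/
def rt (a n : ℕ) (i : ℕ) : ℕ := if i = 0 then 0 else if i < a then a - i else n - 1 + a - i

theorem rt_spec (a n i : ℕ) : (i = 0 ∧ rt a n i = 0) ∨ (0 < i ∧ i < a ∧ rt a n i = a - i) ∨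
    (0 < i ∧ a ≤ i ∧ rt a n i = n - 1 + a - i) := by
  unfold rt
  split_ifs <;> omega

/-- it as a permutation -/
def rtP (a n : ℕ) (h : 2 ≤ a ∧ a < n) : Perm (Fin n) where
  toFun i := ⟨rt a n i, by have := i.2; have := rt_spec a n i; omega⟩
  invFun i := ⟨rt a n i, by have := i.2; have := rt_spec a n i; omega⟩
  left_inv i := Fin.ext (by
    have := i.2
    have := rt_spec a n i
    have := rt_spec a n (rt a n i)
    show rt a n (rt a n i) = i
    omega)
  right_inv i := Fin.ext (by
    have := i.2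
    have := rt_spec a n i
    have := rt_spec a n (rt a n i)
    show rt a n (rt a n i) = i
    omega)

section LS

variable {a n : ℕ} (h : 2 ≤ a ∧ a < n)

theorem hP_val (i : Fin n) : ((hP a n h i : Fin n) : ℕ) = hF a i := rfl

theorem vP_val (i : Fin n) : ((vP a n h i : Fin n) : ℕ) = vF a n i := rfl

theorem hP_inv_val (i : Fin n) : (((hP a n h)⁻¹ i : Fin n) : ℕ) = hB a i := rfl

theorem vP_inv_val (i : Fin n) : (((vP a n h)⁻¹ i : Fin n) : ℕ) = vB a n i := rfl

theorem LP_neg : Cj (LP a n h) ((LP a n h).1⁻¹, (LP a n h).2⁻¹) := by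
  refine ⟨rtP a n h, ?_, ?_⟩
  · rw [mul_inv_eq_iff_eq_mul]
    refine Equiv.ext fun i => Fin.ext ?_
    have := i.2
    show rt a n (hF a i) = hB a (rt a n i)
    have := rt_spec a n i
    have := rt_spec a n (hF a i)
    have := hF_spec a i
    have := hB_spec a (rt a n i)
    omega
  · rw [mul_inv_eq_iff_eq_mul]
    refine Equiv.ext fun i => Fin.ext ?_
    have := i.2
    show rt a n (vF a n i) = vB a n (rt a n i)
    have := rt_spec a n i
    have := rt_spec a n (vF a n i)
    have := vF_spec a n i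
    have := vB_spec a n (rt a n i)
    omega

theorem fc_h : fc (hP a n h) = n - a := by
  have e : (Finset.univ.filter fun i => hP a n h i = i) = Finset.Ici (⟨a, h.2⟩ : Fin n) := by
    ext i
    have := i.2
    simp only [Finset.mem_filter, Finset.mem_univ, true_and, Finset.mem_Ici, Fin.ext_iff,
      Fin.le_def, hP_val]
    have := hF_spec a i
    omega
  unfold fc
  rw [e, Fin.card_Ici]

theorem fc_v : fc (vP a n h) = a - 1 := by
  have e : (Finset.univ.filter fun i => vP a n h i = i) =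
      Finset.Ico (⟨1, by omega⟩ : Fin n) ⟨a, h.2⟩ := by
    ext i
    have := i.2
    simp only [Finset.mem_filter, Finset.mem_univ, true_and, Finset.mem_Ico, Fin.ext_iff,
      Fin.le_def, Fin.lt_def, vP_val]
    have := vF_spec a n i
    omega
  unfold fc
  rw [e, Fin.card_Ico]

theorem fc_zero {σ : Perm (Fin n)} (hσ : ∀ i, σ i ≠ i) : fc σ = 0 := by
  unfold fc
  rw [Finset.card_eq_zero, Finset.filter_eq_empty_iff]
  exact fun i _ => hσ i

theorem fc_inv (σ : Perm (Fin n)) : fc σ⁻¹ = fc σ := by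
  unfold fc
  congr 1
  ext i
  simp only [Finset.mem_filter, Finset.mem_univ, true_and]
  rw [Perm.inv_eq_iff_eq]
  exact eq_comm

variable (h4 : 4 ≤ a) (h5 : a + 3 ≤ n)

include h4 h5

theorem fA (i : Fin n) : vP a n h i ≠ hP a n h i := by
  rw [Ne, Fin.ext_iff, hP_val, vP_val]
  have := i.2
  have := hF_spec a i
  have := vF_spec a n i
  omega

theorem fB (i : Fin n) : vP a n h (hP a n h i) ≠ i := by
  rw [Ne, Fin.ext_iff, vP_val, hP_val]
  have := i.2
  have := hF_spec a i
  have := vF_spec a n (hF a i)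
  omega

theorem fC (i : Fin n) : vP a n h i ≠ hP a n h (hP a n h i) := by
  rw [Ne, Fin.ext_iff, vP_val, hP_val, hP_val]
  have := i.2
  have := hF_spec a i
  have := hF_spec a (hF a i)
  have := vF_spec a n i
  omega

theorem fD (i : Fin n) : vP a n h (vP a n h i) ≠ hP a n h i := by
  rw [Ne, Fin.ext_iff, vP_val, hP_val, vP_val]
  have := i.2
  have := hF_spec a i
  have := vF_spec a n i
  have := vF_spec a n (vF a n i)
  omega

theorem fE (i : Fin n) : vP a n h (vP a n h (vP a n h i)) ≠ hP a n h i := by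
  rw [Ne, Fin.ext_iff, vP_val, vP_val, vP_val, hP_val]
  have := i.2
  have := hF_spec a i
  have := vF_spec a n i
  have := vF_spec a n (vF a n i)
  have := vF_spec a n (vF a n (vF a n i))
  omega

theorem fF (i : Fin n) : vP a n h i ≠ hP a n h (hP a n h (hP a n h i)) := by
  rw [Ne, Fin.ext_iff, vP_val, hP_val, hP_val, hP_val]
  have := i.2
  have := hF_spec a i
  have := hF_spec a (hF a i)
  have := hF_spec a (hF a (hF a i))
  have := vF_spec a n i
  omega

theorem fG (i j : Fin n) (hij : vP a n h j = hP a n h i) :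
    vP a n h i ≠ hP a n h (hP a n h j) := by
  rw [Fin.ext_iff, vP_val, hP_val] at hij
  rw [Ne, Fin.ext_iff, vP_val, hP_val, hP_val]
  have := i.2
  have := j.2
  have := vF_spec a n j
  have := hF_spec a i
  have := vF_spec a n i
  have := hF_spec a j
  have := hF_spec a (hF a j)
  omega

end LS

end Pool.Agent.R790.Ori
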