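import Pool.Agent.R790.Ori.Small

/-! The case of four squares. -/

set_option autoImplicit false

namespace Pool.Agent.R790.Ori

open Equiv

/-- the branch sets -/
def br8 {V : Type} [DecidableEq V] (P : Fin 8 → V) : Fin 3 ⊕ Fin 3 → Finset V
  | Sum.inl i => ![{P 0}, {P 1}, {P 2, P 3}] i
  | Sum.inr i => ![{P 4}, {P 5}, {P 6, P 7}] i

theorem minor8 {V : Type} (G : SimpleGraph V) (P : Fin 8 → V) (inj : Function.Injective P)
    (e04 : G.Adj (P 0) (P 4)) (e05 : G.Adj (P 0) (P 5)) (e06 : G.Adj (P 0) (P 6))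
    (e14 : G.Adj (P 1) (P 4)) (e15 : G.Adj (P 1) (P 5)) (e17 : G.Adj (P 1) (P 7))
    (e34 : G.Adj (P 3) (P 4)) (e35 : G.Adj (P 3) (P 5)) (e27 : G.Adj (P 2) (P 7))
    (e23 : G.Adj (P 2) (P 3)) (e67 : G.Adj (P 6) (P 7)) :
    LocalMinor (completeBipartiteGraph (Fin 3) (Fin 3)) 3 G := by
  classical
  refine ⟨br8 P, ?_, ?_, ?_⟩
  · rintro (i | i)
    · fin_cases i
      · exact ⟨by simp [br8], connected_of_star G _ (P 0) (by simp [br8]) fun u hu =>
          Or.inl (by simpa [br8] using hu)⟩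
      · exact ⟨by simp [br8], connected_of_star G _ (P 1) (by simp [br8]) fun u hu =>
          Or.inl (by simpa [br8] using hu)⟩
      · refine ⟨(Finset.card_le_two).trans (by norm_num),
          connected_of_star G _ (P 2) (by simp [br8]) fun u hu => ?_⟩
        have hu' : u = P 2 ∨ u = P 3 := by simpa [br8] using hu
        rcases hu' with rfl | rfl
        · exact Or.inl rfl
        · exact Or.inr e23.symm
    · fin_cases i
      · exact ⟨by simp [br8], connected_of_star G _ (P 4) (by simp [br8]) fun u hu =>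
          Or.inl (by simpa [br8] using hu)⟩
      · exact ⟨by simp [br8], connected_of_star G _ (P 5) (by simp [br8]) fun u hu =>
          Or.inl (by simpa [br8] using hu)⟩
      · refine ⟨(Finset.card_le_two).trans (by norm_num),
          connected_of_star G _ (P 6) (by simp [br8]) fun u hu => ?_⟩
        have hu' : u = P 6 ∨ u = P 7 := by simpa [br8] using hu
        rcases hu' with rfl | rfl
        · exact Or.inl rfl
        · exact Or.inr e67.symm
  · have key : ∀ x y : Fin 3 ⊕ Fin 3, x ≠ y → Disjoint (br8 (id : Fin 8 → Fin 8) x) (br8 id y) := by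
      decide
    have e : ∀ x, br8 P x = (br8 (id : Fin 8 → Fin 8) x).image P := by
      rintro (i | i) <;> fin_cases i <;>
        simp [br8, Finset.image_insert, Finset.image_singleton]
    intro x y hxy
    rw [e, e, Finset.disjoint_image inj]
    exact key x y hxy
  · rintro (i | i) (j | j) h
    · simp [completeBipartiteGraph] at h
    · fin_cases i <;> fin_cases j
      · exact ⟨P 0, by simp [br8], P 4, by simp [br8], e04⟩
      · exact ⟨P 0, by simp [br8], P 5, by simp [br8], e05⟩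
      · exact ⟨P 0, by simp [br8], P 6, by simp [br8], e06⟩
      · exact ⟨P 1, by simp [br8], P 4, by simp [br8], e14⟩
      · exact ⟨P 1, by simp [br8], P 5, by simp [br8], e15⟩
      · exact ⟨P 1, by simp [br8], P 7, by simp [br8], e17⟩
      · exact ⟨P 3, by simp [br8], P 4, by simp [br8], e34⟩
      · exact ⟨P 3, by simp [br8], P 5, by simp [br8], e35⟩
      · exact ⟨P 2, by simp [br8], P 7, by simp [br8], e27⟩
    · fin_cases i <;> fin_cases j
      · exact ⟨P 4, by simp [br8], P 0, by simp [br8], e04.symm⟩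
      · exact ⟨P 4, by simp [br8], P 1, by simp [br8], e14.symm⟩
      · exact ⟨P 4, by simp [br8], P 3, by simp [br8], e34.symm⟩
      · exact ⟨P 5, by simp [br8], P 0, by simp [br8], e05.symm⟩
      · exact ⟨P 5, by simp [br8], P 1, by simp [br8], e15.symm⟩
      · exact ⟨P 5, by simp [br8], P 3, by simp [br8], e35.symm⟩
      · exact ⟨P 6, by simp [br8], P 0, by simp [br8], e06.symm⟩
      · exact ⟨P 7, by simp [br8], P 1, by simp [br8], e17.symm⟩
      · exact ⟨P 7, by simp [br8], P 2, by simp [br8], e27.symm⟩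
    · simp [completeBipartiteGraph] at h

/-- `T` on pairs -/
def T0 {n : ℕ} (p : Pr n) : Pr n := (p.1, p.2 * p.1⁻¹)

/-- `S` on pairs -/
def S0 {n : ℕ} (p : Pr n) : Pr n := (p.1 * p.2⁻¹, p.2)

/-- the base point -/
def b4 : Pr 4 := LP 2 4 (by decide)

/-- the eight points -/
def Q8 : Fin 8 → Pr 4 :=
  ![b4, T0 (S0 b4), S0 (T0 (S0 (S0 b4))), T0 (S0 (S0 b4)), S0 b4, S0 (S0 b4), T0 b4, S0 (T0 b4)]

theorem Q8_inj : Function.Injective fun k => cls (Q8 k) := by
  refine inj_of_Iw [[0], [2], [2, 0]] _ (List.nodup_ofFn.1 ?_)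
  have : (List.ofFn fun k => Iw [[0], [2], [2, 0]] (Q8 k)) =
      [[2, 1, 0], [0, 0, 1], [1, 2, 0], [0, 2, 1], [0, 1, 2], [0, 1, 0], [2, 0, 1], [1, 0, 2]] := by
    decide +kernel
  rw [this]
  decide

theorem small4 : LocalMinor (completeBipartiteGraph (Fin 3) (Fin 3)) 3
    (orbitGraph (cls (LP 2 4 (by decide)))) := by
  have hT : ∀ p : Pr 4, cls (T0 p) = T 4 (cls p) := fun p => rfl
  have hS : ∀ p : Pr 4, cls (S0 p) = S 4 (cls p) := fun p => rfl
  have m : ∀ k, cls (Q8 k) ∈ orb (cls (LP 2 4 (by decide))) := by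
    have m0 : cls b4 ∈ orb (cls (LP 2 4 (by decide))) := orb_self _
    have m2 := (orb_S (x := cls (LP 2 4 (by decide)))).2 m0
    have m5 := (orb_S (x := cls (LP 2 4 (by decide)))).2 m2
    have m7 := (orb_T (x := cls (LP 2 4 (by decide)))).2 m5
    have m8 := (orb_S (x := cls (LP 2 4 (by decide)))).2 m7
    have m4 := (orb_T (x := cls (LP 2 4 (by decide)))).2 m2
    have m1 := (orb_T (x := cls (LP 2 4 (by decide)))).2 m0
    have m3 := (orb_S (x := cls (LP 2 4 (by decide)))).2 m1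
    intro k
    fin_cases k
    · exact m0
    · exact m4
    · exact m8
    · exact m7
    · exact m2
    · exact m5
    · exact m1
    · exact m3
  let P : Fin 8 → orb (cls (LP 2 4 (by decide))) := fun k => ⟨cls (Q8 k), m k⟩
  have hP : Function.Injective P := fun k l h => Q8_inj (congrArg Subtype.val h)
  have aT : ∀ k l : Fin 8, k ≠ l → cls (Q8 l) = T 4 (cls (Q8 k)) →
      (orbitGraph (cls (LP 2 4 (by decide)))).Adj (P k) (P l) :=
    fun k l hkl h => ⟨fun h' => hkl (hP h'), Or.inl h⟩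
  have aS : ∀ k l : Fin 8, k ≠ l → cls (Q8 l) = S 4 (cls (Q8 k)) →
      (orbitGraph (cls (LP 2 4 (by decide)))).Adj (P k) (P l) :=
    fun k l hkl h => ⟨fun h' => hkl (hP h'), Or.inr (Or.inl h)⟩
  let σ : Perm (Fin 4) := swap 0 1 * swap 0 2
  let τ : Perm (Fin 4) := swap 0 2 * swap 0 1
  refine minor8 (orbitGraph (cls (LP 2 4 (by decide)))) P hP ?_ ?_ ?_ ?_ ?_ ?_ ?_ ?_ ?_ ?_ ?_
  · exact aS 0 4 (by decide) rfl
  · refine (aS 5 0 (by decide) ?_).symm
    exact (cls_eq.2 ⟨1, by decide +kernel, by decide +kernel⟩ : cls (S0 (Q8 5)) = cls (Q8 0)).symm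
  · exact aT 0 6 (by decide) rfl
  · exact (aT 4 1 (by decide) rfl).symm
  · refine aT 1 5 (by decide) ?_
    exact (cls_eq.2 ⟨σ, by decide +kernel, by decide +kernel⟩ : cls (T0 (Q8 1)) = cls (Q8 5)).symm
  · refine (aS 7 1 (by decide) ?_).symm
    exact (cls_eq.2 ⟨σ, by decide +kernel, by decide +kernel⟩ : cls (S0 (Q8 7)) = cls (Q8 1)).symm
  · refine aT 3 4 (by decide) ?_
    exact (cls_eq.2 ⟨τ, by decide +kernel, by decide +kernel⟩ : cls (T0 (Q8 3)) = cls (Q8 4)).symm
  · exact (aT 5 3 (by decide) rfl).symm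
  · refine aT 2 7 (by decide) ?_
    exact (cls_eq.2 ⟨τ, by decide +kernel, by decide +kernel⟩ : cls (T0 (Q8 2)) = cls (Q8 7)).symm
  · exact (aS 3 2 (by decide) rfl).symm
  · exact aS 6 7 (by decide) rfl

end Pool.Agent.R790.Ori
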