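import Pool.Agent.R790.Ori.Dist

/-! Small cases. -/

set_option autoImplicit false

namespace Pool.Agent.R790.Ori

open Equiv

theorem inj_of_ofFn {n : ℕ} (ws : List (List (Fin 4))) (p : Pr n) (t : List (List ℕ))
    (h : (List.ofFn fun k => Iw ws (P12 p k)) = t) (ht : t.Nodup) :
    Function.Injective fun k => cls (P12 p k) := by
  rw [← h] at ht
  exact inj_of_Iw ws _ (List.nodup_ofFn.1 ht)

theorem neg_S {n : ℕ} {p : Pr n} (h : Cj p (p.1⁻¹, p.2⁻¹)) :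
    Cj (p.1 * p.2⁻¹, p.2) ((p.1 * p.2⁻¹)⁻¹, p.2⁻¹) := by
  obtain ⟨σ, h1, h2⟩ := h
  have h1' : σ * p.1 * σ⁻¹ = p.1⁻¹ := h1
  have h2' : σ * p.2 * σ⁻¹ = p.2⁻¹ := h2
  refine ⟨p.2 * σ, ?_, ?_⟩
  · show p.2 * σ * (p.1 * p.2⁻¹) * (p.2 * σ)⁻¹ = (p.1 * p.2⁻¹)⁻¹
    have : p.2 * σ * (p.1 * p.2⁻¹) * (p.2 * σ)⁻¹ =
        p.2 * (σ * p.1 * σ⁻¹) * (σ * p.2 * σ⁻¹)⁻¹ * p.2⁻¹ := by group
    rw [this, h1', h2']
    group
  · show p.2 * σ * p.2 * (p.2 * σ)⁻¹ = p.2⁻¹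
    have : p.2 * σ * p.2 * (p.2 * σ)⁻¹ = p.2 * (σ * p.2 * σ⁻¹) * p.2⁻¹ := by group
    rw [this, h2']
    group

theorem minor_S {n : ℕ} (p : Pr n) (h : Cj p (p.1⁻¹, p.2⁻¹)) (ws : List (List (Fin 4)))
    (t : List (List ℕ)) (ht : (List.ofFn fun k => Iw ws (P12 (p.1 * p.2⁻¹, p.2) k)) = t)
    (hn : t.Nodup) :
    LocalMinor (completeBipartiteGraph (Fin 3) (Fin 3)) 3 (orbitGraph (cls p)) :=
  minor_of_distinct (p.1 * p.2⁻¹, p.2) (neg_S h)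
    (by
      have : cls (p.1 * p.2⁻¹, p.2) = S n (cls p) := rfl
      rw [this]
      exact orb_S.2 (orb_self _))
    (inj_of_ofFn ws _ t ht hn)

theorem small5 : LocalMinor (completeBipartiteGraph (Fin 3) (Fin 3)) 3
    (orbitGraph (cls (LP 2 5 (by decide)))) :=
  minor_S _ (LP_neg _) [[0], [2, 2], [2, 0, 2, 0]]
    [[0, 1, 5], [0, 0, 2], [1, 2, 0], [1, 0, 2], [0, 2, 1], [0, 1, 0], [1, 5, 0], [0, 2, 2],
      [0, 0, 1], [0, 5, 1], [0, 2, 5], [1, 0, 5]] (by decide +kernel) (by decide)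

theorem small6 : LocalMinor (completeBipartiteGraph (Fin 3) (Fin 3)) 3
    (orbitGraph (cls (LP 2 6 (by decide)))) :=
  minor_S _ (LP_neg _) [[2], [2, 0, 0], [2, 2, 1]]
    [[1, 1, 0], [0, 2, 4], [0, 0, 0], [0, 0, 1], [0, 4, 2], [1, 0, 0], [4, 0, 1], [0, 1, 2],
      [0, 0, 2], [4, 0, 0], [0, 3, 0], [0, 4, 3]] (by decide +kernel) (by decide)

theorem small7A : LocalMinor (completeBipartiteGraph (Fin 3) (Fin 3)) 3
    (orbitGraph (cls (LP 2 7 (by decide)))) :=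
  minor_S _ (LP_neg _) [[0], [2, 2], [2, 1, 2, 1]]
    [[0, 1, 0], [0, 0, 1], [1, 0, 0], [1, 0, 7], [0, 0, 2], [0, 1, 4], [1, 7, 0], [0, 2, 2],
      [0, 4, 0], [0, 7, 1], [0, 2, 0], [1, 4, 0]] (by decide +kernel) (by decide)

theorem small7B : LocalMinor (completeBipartiteGraph (Fin 3) (Fin 3)) 3
    (orbitGraph (cls (LP 3 7 (by decide)))) :=
  minor_S _ (LP_neg _) [[2, 1], [2, 2, 1], [2, 0, 0, 0]]
    [[0, 0, 1], [2, 4, 0], [0, 0, 4], [4, 0, 0], [0, 2, 0], [0, 0, 2], [0, 0, 0], [0, 1, 4],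
      [3, 0, 0], [2, 0, 0], [0, 0, 3], [0, 3, 0]] (by decide +kernel) (by decide)

theorem small9B : LocalMinor (completeBipartiteGraph (Fin 3) (Fin 3)) 3
    (orbitGraph (cls (LP 3 9 (by decide)))) :=
  minor_S _ (LP_neg _) [[0], [2, 2, 0], [2, 0, 0, 0], [2, 2, 2, 0]]
    [[0, 0, 1, 0], [0, 0, 3, 0], [2, 0, 0, 4], [2, 0, 0, 0], [0, 0, 0, 0], [0, 6, 0, 0],
      [2, 0, 0, 2], [0, 0, 6, 0], [0, 0, 0, 5], [0, 2, 0, 0], [0, 0, 0, 1], [2, 5, 0, 0]]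
    (by decide +kernel) (by decide)

/-- the general case -/
theorem minor_LP {a n : ℕ} (h : 2 ≤ a ∧ a < n) (h4 : 4 ≤ a) (h5 : a + 3 ≤ n)
    (h6 : n + 1 ≠ 2 * a) : LocalMinor (completeBipartiteGraph (Fin 3) (Fin 3)) 3
    (orbitGraph (cls (LP a n h))) :=
  minor_of_distinct _ (LP_neg h) (orb_self _) (inj_of_Iw ws4 _ (LP_inj h h4 h5 h6))

end Pool.Agent.R790.Ori
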